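import Mathlib
import Pool.Agent.T6.H49.CSD.Main
import Pool.Agent.TH314.CSD.Scales

/-! # MP_edeaa2_an: incommensurable values of a counterexample to the conjecture of Cassels and
Swinnerton-Dyer

Let `V, ν > 0` and let `T` be such that every real `d × d` matrix `h` with `|det h| = V` has
`|F h x| < T` for some nonzero integer point `x` (for example `d! V < d ^ d T`), where `F h` is the
product of the linear forms given by the rows of `h`.

1. Let `d ≥ 2`. There is `c > 0` which only depends on `d, V, ν, T` such that for every `g` with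
   `|det g| = V`, `|F g| ≥ ν` at nonzero integer points and `F g` not proportional to an integral
   form, and for all large `X`, there are at least `c log X` nonzero integer points with coordinates
   of absolute value at most `X` at which `|F g| < T` and at any two of which `F g` has an
   irrational ratio.
2. Let `d ≥ 3`. If `g` is such a form (any `V, ν`) and `h` is recurrent in the orbit closure of
   `g`, then the same holds near every single value of `F h`: for every open set `U` which contains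
   a value `F h x`, there are at least `c log X` such points at which the value is in `U`, for `F h`
   and for all forms in its orbit closure.

In particular there are at least `c log X` distinct values. -/

set_option autoImplicit false

open Filter Topology

namespace Pool.Agent.Results.MP_edeaa2_an.IncommensurableValues

variable {d : ℕ}

/-- the product of the linear forms given by the rows of `h`, at an integer point -/
noncomputable def F (h : Matrix (Fin d) (Fin d) ℝ) (x : Fin d → ℤ) : ℝ :=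
  ∏ i : Fin d, ∑ j : Fin d, h i j * (x j : ℝ)

/-- the product of the linear forms is proportional to a form with integer coefficients -/
def PropInt (h : Matrix (Fin d) (Fin d) ℝ) : Prop :=
  ∃ c : ℝ, c ≠ 0 ∧ ∀ m : Fin d →₀ ℕ, ∃ z : ℤ, MvPolynomial.coeff m
    (c • (∏ i : Fin d, ∑ j : Fin d,
      MvPolynomial.C (h i j) * MvPolynomial.X j : MvPolynomial (Fin d) ℝ)) = (z : ℝ)

/-- The closure of the set of matrices `diag(a) g γ` with `a` positive of product one and `γ`
integral of determinant `±1`. -/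
def OrbitClosure (g : Matrix (Fin d) (Fin d) ℝ) : Set (Matrix (Fin d) (Fin d) ℝ) :=
  closure {h | ∃ (a : Fin d → ℝ) (γ : Matrix (Fin d) (Fin d) ℤ), (∀ i, 0 < a i) ∧ ∏ i, a i = 1 ∧
    |γ.det| = 1 ∧ h = Matrix.diagonal a * g * γ.map (Int.cast : ℤ → ℝ)}

/-- The orbit closure of `h` is minimal. -/
def Recurrent (h : Matrix (Fin d) (Fin d) ℝ) : Prop :=
  ∀ h' ∈ OrbitClosure h, h ∈ OrbitClosure h'

/-- For all large `X` there are at least `c log X` nonzero integer points with coordinates of
absolute value at most `X` at which `F h` has values in `U` with pairwise irrational ratios. -/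
def ManyClasses (h : Matrix (Fin d) (Fin d) ℝ) (U : Set ℝ) (c : ℝ) : Prop :=
  ∃ X₀ : ℝ, ∀ X : ℝ, X₀ ≤ X → ∃ S : Finset (Fin d → ℤ),
    (∀ x ∈ S, x ≠ 0 ∧ (∀ i, |(x i : ℝ)| ≤ X) ∧ F h x ∈ U) ∧
    (∀ x ∈ S, ∀ y ∈ S, x ≠ y → Irrational (F h x / F h y)) ∧
    c * Real.log X ≤ S.card

lemma closure_eq (g : Matrix (Fin d) (Fin d) ℝ) : OrbitClosure g = closure (H715R2.Orb g) := by
  unfold OrbitClosure H715R2.Orb
  congr 1
  ext h
  constructor
  · rintro ⟨a, γ, ha0, ha1, hγ, hh⟩
    exact ⟨a, γ, ha0, ha1, Int.isUnit_iff_abs_eq.2 hγ, hh⟩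
  · rintro ⟨a, γ, ha0, ha1, hγ, hh⟩
    exact ⟨a, γ, ha0, ha1, Int.isUnit_iff_abs_eq.1 hγ, hh⟩

lemma recurrent_iff (h : Matrix (Fin d) (Fin d) ℝ) :
    Recurrent h ↔ TH314.CSD.Recurrent h := by
  unfold Recurrent TH314.CSD.Recurrent
  simp only [closure_eq]

theorem result :
    -- 1. all counterexamples
    (∀ d : ℕ, 2 ≤ d → ∀ V ν T : ℝ, 0 < V → 0 < ν →
      ((d.factorial : ℝ) * V < (d : ℝ) ^ d * T ∨
        ∀ h : Matrix (Fin d) (Fin d) ℝ, |h.det| = V → ∃ x : Fin d → ℤ, x ≠ 0 ∧ |F h x| < T) →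
      ∃ c : ℝ, 0 < c ∧ ∀ g : Matrix (Fin d) (Fin d) ℝ, |g.det| = V →
        (∀ x : Fin d → ℤ, x ≠ 0 → ν ≤ |F g x|) → ¬ PropInt g →
        ManyClasses g (Set.Ioo (-T) T) c) ∧
    -- 2. recurrent counterexamples, near every value
    (∀ d : ℕ, 3 ≤ d → ∀ g : Matrix (Fin d) (Fin d) ℝ, g.det ≠ 0 →
      ∀ ν : ℝ, 0 < ν → (∀ x : Fin d → ℤ, x ≠ 0 → ν ≤ |F g x|) → ¬ PropInt g →
      ∀ h ∈ OrbitClosure g, Recurrent h →
      ∀ x : Fin d → ℤ, x ≠ 0 → ∀ U : Set ℝ, IsOpen U → F h x ∈ U →
      ∃ c : ℝ, 0 < c ∧ ∀ h' ∈ OrbitClosure h, ManyClasses h' U c) := by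
  refine ⟨?_, ?_⟩
  · intro d hd V ν T hV hν hT
    have hd0 : 0 < d := by omega
    have hT' : ∀ h : Matrix (Fin d) (Fin d) ℝ, |h.det| = V →
        ∃ m : Fin d → ℤ, m ≠ 0 ∧ |F h m| < T := by
      rcases hT with hT | hT
      · exact fun h hh => H715R2.mink_prod hd0 V T hV hT h hh
      · exact hT
    obtain ⟨e, rfl⟩ : ∃ e, d = e + 1 := ⟨d - 1, by omega⟩
    set Y : Set (Matrix (Fin (e + 1)) (Fin (e + 1)) ℝ) :=
      {h | |h.det| = V ∧ H715R2.HasNu h ν} with hY
    have hYc : IsClosed Y := by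
      refine IsClosed.inter ?_ ?_
      · exact isClosed_eq (continuous_abs.comp H715R2.continuous_det') continuous_const
      · have h1 : {h : Matrix (Fin (e + 1)) (Fin (e + 1)) ℝ | H715R2.HasNu h ν} =
            ⋂ (m : Fin (e + 1) → ℤ) (_ : m ≠ 0), {h | ν ≤ |H715R2.FF h (H715R2.iR m)|} := by
          ext h
          simp [H715R2.HasNu]
        show IsClosed {h : Matrix (Fin (e + 1)) (Fin (e + 1)) ℝ | H715R2.HasNu h ν}
        rw [h1]
        exact isClosed_iInter fun m => isClosed_iInter fun _ =>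
          isClosed_le continuous_const (continuous_abs.comp (H715R2.continuous_FF _))
    have hYinv : H715R2.Inv Y := by
      intro h hh a γ ha0 ha1 hγ
      have hmem : Matrix.diagonal a * h * H715R2.zR γ ∈ H715R2.Orb h := ⟨a, γ, ha0, ha1, hγ, rfl⟩
      exact ⟨by rw [H715R2.abs_det_orb hmem]; exact hh.1,
        H715R2.hasNu_closure hh.2 (subset_closure hmem)⟩
    obtain ⟨c, hc, hcount⟩ := T6.H49.CSD.many_classes (e := e) (by omega) hV hν hYc hYinv
      (fun h hh => hh.1) (fun h hh => hh.2) (U := Set.Ioo (-T) T) isOpen_Ioo (fun h hh => by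
        obtain ⟨m, hm, hmT⟩ := hT' h hh.1
        exact ⟨m, hm, abs_lt.1 hmT⟩)
    exact ⟨c, hc, fun g hg hnu hint => hcount g ⟨hg, hnu⟩ hint⟩
  · intro d hd g hg ν hν hF hint h hh hrec x hx U hU hxU
    obtain ⟨e, rfl⟩ : ∃ e, d = e + 1 := ⟨d - 1, by omega⟩
    rw [closure_eq] at hh
    have hrec' := (recurrent_iff h).1 hrec
    have hYg : closure (H715R2.Orb h) ⊆ closure (H715R2.Orb g) := TH314.CSD.orb_closure_trans hh
    obtain ⟨c, hc, hcount⟩ := T6.H49.CSD.many_classes (e := e) (by omega) (abs_pos.2 hg) hν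
      (Y := closure (H715R2.Orb h)) isClosed_closure (TH314.CSD.inv_closure h)
      (fun h' hh' => H715R2.abs_det_closure (hYg hh'))
      (fun h' hh' => H715R2.hasNu_closure hF (hYg hh')) hU
      (fun h' hh' => TH314.CSD.exists_value_near (hrec' h' hh') hx (hU.mem_nhds hxU))
    refine ⟨c, hc, fun h' hh' => ?_⟩
    rw [closure_eq] at hh'
    have hrec'' : TH314.CSD.Recurrent h' := by
      intro h'' hh''
      exact TH314.CSD.orb_closure_trans (hrec' h'' (TH314.CSD.orb_closure_trans hh' hh'')) hh'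
    exact hcount h' hh' (TH314.CSD.recurrent_values hd hg hν hF hint (hYg hh') hrec'').1

end Pool.Agent.Results.MP_edeaa2_an.IncommensurableValues
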