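import Mathlib
import Pool.Agent.T6.H49.CSD.Closure

/-! # MP_edeaa2_an: the small values of a counterexample to the conjecture of Cassels and
Swinnerton-Dyer do not concentrate

Let `d ≥ 3`, let `g` be a real invertible `d × d` matrix and let the product `F g` of the linear
forms given by its rows satisfy `|F g| ≥ ν > 0` at all nonzero integer points.

1. If `F g` is not proportional to an integral form, then its small values do not concentrate: for
   all `T, ε > 0` there are `δ > 0` and `C` such that for all `X ≥ 0` and all real `v` at most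
   `ε (log (1 + ‖g‖ X)) ^ (d - 1) + C` nonzero integer points `x` with coordinates of absolute value
   at most `X` and `|F g x| < T` have a value at a distance less than `δ` from `v`. So no limit
   distribution of the small values has an atom. The numbers `δ` and `C` can be chosen for all forms
   in the orbit closure of `g` at once.
2. If `F g` is proportional to an integral form, then the opposite holds: for some `T` and `c > 0`
   and for all large `X` a single value `v`, `|v| < T`, is taken at least `c (log X) ^ (d - 1)` times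
   at these points.

The conjecture of Cassels and Swinnerton-Dyer says that the first case does not occur. -/

set_option autoImplicit false

open Filter Topology

namespace Pool.Agent.Results.MP_edeaa2_an.NonconcentratedValues

variable {d : ℕ}

/-- the product of the linear forms given by the rows of `h`, at an integer point -/
noncomputable def F (h : Matrix (Fin d) (Fin d) ℝ) (x : Fin d → ℤ) : ℝ :=
  ∏ i : Fin d, ∑ j : Fin d, h i j * (x j : ℝ)

/-- the product of the linear forms is proportional to a form with integer coefficients -/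
def PropInt (h : Matrix (Fin d) (Fin d) ℝ) : Prop :=
  ∃ c : ℝ, c ≠ 0 ∧ ∀ m : Fin d →₀ ℕ, ∃ z : ℤ, MvPolynomial.coeff m
    (c • (∏ i : Fin d, ∑ j : Fin d,
      MvPolynomial.C (h i j) * MvPolynomial.X j : MvPolynomial (Fin d) ℝ)) = (z : ℝ)

/-- The closure of the set of matrices `diag(a) g γ` with `a` positive of product one and `γ`
integral of determinant `±1`. -/
def OrbitClosure (g : Matrix (Fin d) (Fin d) ℝ) : Set (Matrix (Fin d) (Fin d) ℝ) :=
  closure {h | ∃ (a : Fin d → ℝ) (γ : Matrix (Fin d) (Fin d) ℤ), (∀ i, 0 < a i) ∧ ∏ i, a i = 1 ∧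
    |γ.det| = 1 ∧ h = Matrix.diagonal a * g * γ.map (Int.cast : ℤ → ℝ)}

lemma closure_eq (g : Matrix (Fin d) (Fin d) ℝ) : OrbitClosure g = closure (H715R2.Orb g) := by
  unfold OrbitClosure H715R2.Orb
  congr 1
  ext h
  constructor
  · rintro ⟨a, γ, ha0, ha1, hγ, hh⟩
    exact ⟨a, γ, ha0, ha1, Int.isUnit_iff_abs_eq.2 hγ, hh⟩
  · rintro ⟨a, γ, ha0, ha1, hγ, hh⟩
    exact ⟨a, γ, ha0, ha1, Int.isUnit_iff_abs_eq.1 hγ, hh⟩

theorem result (d : ℕ) (hd : 3 ≤ d) (g : Matrix (Fin d) (Fin d) ℝ) (hg : g.det ≠ 0) (ν : ℝ)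
    (hν : 0 < ν) (hF : ∀ x : Fin d → ℤ, x ≠ 0 → ν ≤ |F g x|) :
    -- 1. counterexamples
    (¬ PropInt g → ∀ T ε : ℝ, 0 < T → 0 < ε → ∃ δ C : ℝ, 0 < δ ∧ ∀ h ∈ OrbitClosure g,
      ∀ X : ℝ, 0 ≤ X → ∀ v : ℝ,
        ({x : Fin d → ℤ | x ≠ 0 ∧ (∀ i, |(x i : ℝ)| ≤ X) ∧ |F h x| < T ∧
          |F h x - v| < δ}.ncard : ℝ) ≤
          ε * Real.log (1 + (∑ i, ∑ j, |h i j|) * X) ^ (d - 1) + C) ∧
    -- 2. forms which are proportional to integral forms
    (PropInt g → ∃ T c X₀ : ℝ, 0 < c ∧ ∀ X : ℝ, X₀ ≤ X → ∃ v : ℝ, |v| < T ∧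
      c * Real.log X ^ (d - 1) ≤
        ({x : Fin d → ℤ | x ≠ 0 ∧ (∀ i, |(x i : ℝ)| ≤ X) ∧ F g x = v}.ncard : ℝ)) := by
  classical
  obtain ⟨e, rfl⟩ : ∃ e, d = e + 1 := ⟨d - 1, by omega⟩
  refine ⟨fun hint T ε hT hε => ?_, fun hint => ?_⟩
  · obtain ⟨δ, C, hδ, hC⟩ := T6.H49.CSD.no_atoms (e := e) (by omega) (abs_pos.2 hg) hν hT
      (Y := closure (H715R2.Orb g)) isClosed_closure (TH314.CSD.inv_closure g)
      (fun h hh => H715R2.abs_det_closure hh) (fun h hh => H715R2.hasNu_closure hF hh)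
      (fun h hh => T6.H49.CSD.not_propInt_closure (by omega) hg hν hF hint hh) hε
    refine ⟨δ, C, hδ, fun h hh X hX v => ?_⟩
    rw [closure_eq] at hh
    set s : Set (Fin (e + 1) → ℤ) := {x | x ≠ 0 ∧ (∀ i, |(x i : ℝ)| ≤ X) ∧ |F h x| < T ∧
      |F h x - v| < δ} with hs
    have hfin : s.Finite := (T6.H49.CSD.finite_box X).subset fun x hx => hx.2.1
    have h1 := hC h hh X hX v hfin.toFinset (fun x hx => hfin.mem_toFinset.1 hx)
    rw [← Set.ncard_eq_toFinset_card _ hfin] at h1
    exact h1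
  · obtain ⟨T, c, X₀, -, hc, hX₀⟩ := T6.H49.CSD.exists_level (e := e) hg hν hF hint
    refine ⟨T, c, X₀, hc, fun X hX => ?_⟩
    obtain ⟨v, hv0, hvT, hv⟩ := hX₀ X hX
    refine ⟨v, hvT, hv.trans ?_⟩
    have h1 : T6.H49.CSD.level g v X ⊆
        {x : Fin (e + 1) → ℤ | x ≠ 0 ∧ (∀ i, |(x i : ℝ)| ≤ X) ∧ F g x = v} := by
      rintro x ⟨hxX, hxv⟩
      refine ⟨?_, hxX, hxv⟩
      rintro rfl
      rw [T6.H49.CSD.FF_zero] at hxv
      exact hv0 hxv.symm
    exact_mod_cast Set.ncard_le_ncard h1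
      ((T6.H49.CSD.finite_box X).subset fun x hx => hx.2.1)

end Pool.Agent.Results.MP_edeaa2_an.NonconcentratedValues
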