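import Mathlib
import Pool.Agent.T6.H49.CSD.ComplexPer

/-! # MP_edeaa2_an: a complexity gap for the conjecture of Cassels and Swinnerton-Dyer

Let `d ≥ 3`, let `p` be the smallest prime factor of `d` and let `V, ν > 0`. We consider all real
`d × d` matrices `g` with `|det g| = V` such that the product `F g` of the linear forms given by the
rows of `g` satisfies `|F g| ≥ ν` at all nonzero integer points. The orbit of `g` is the set of the
matrices `diag(a) g` with `a` positive of product one.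

Two matrices `x` and `y` are `ε`-close if `x = diag(b) (1 + E) y γ` with `1 / K ≤ b i ≤ K`, with
`|E i j| ≤ ε` and with `γ` integral of determinant `±1`: up to the size `ε` they are the same, up to
a bounded diagonal matrix and an integral change of variables. Let `N(g, ε)` be the smallest number
of classes into which the orbit of `g` can be divided such that any two elements of a class are
`ε`-close.

The theorem: there are `c, ε₀ > 0` which only depend on `d, V, ν, K` such that for all these `g`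
the following are equivalent.

1. `F g` is proportional to an integral form.
2. `N(g, 0)` is finite: the orbit of `g` modulo `GL_d(ℤ)` consists of finitely many bounded pieces.
3. `N(g, ε) < c (log (1 / ε)) ^ (d - d / p)` for some `ε < ε₀`.

So the orbit of a counterexample to the conjecture has, at each scale `ε < ε₀`, complexity at least
`c (log (1 / ε)) ^ (d - d / p)`; for prime `d` this is `c (log (1 / ε)) ^ (d - 1)`. Conversely the
conjecture holds for `g` as soon as the orbit of `g` has a smaller complexity at one single scale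
`ε < ε₀`. This is similar to the theorem of Morse and Hedlund and to the problem of Nivat, which
concern the periodicity of words and of colourings of `ℤ ^ 2` of low complexity. -/

set_option autoImplicit false

open Filter Topology

namespace Pool.Agent.Results.MP_edeaa2_an.OrbitComplexity

variable {d : ℕ}

/-- the product of the linear forms given by the rows of `h`, at an integer point -/
noncomputable def F (h : Matrix (Fin d) (Fin d) ℝ) (x : Fin d → ℤ) : ℝ :=
  ∏ i : Fin d, ∑ j : Fin d, h i j * (x j : ℝ)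

/-- the product of the linear forms is proportional to a form with integer coefficients -/
def PropInt (h : Matrix (Fin d) (Fin d) ℝ) : Prop :=
  ∃ c : ℝ, c ≠ 0 ∧ ∀ m : Fin d →₀ ℕ, ∃ z : ℤ, MvPolynomial.coeff m
    (c • (∏ i : Fin d, ∑ j : Fin d,
      MvPolynomial.C (h i j) * MvPolynomial.X j : MvPolynomial (Fin d) ℝ)) = (z : ℝ)

/-- `x = diag(b) (1 + E) y γ` with `b` between `1 / K` and `K`, with the entries of `E` at most `ε`
and with `γ` integral of determinant `±1` -/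
def Close (K ε : ℝ) (x y : Matrix (Fin d) (Fin d) ℝ) : Prop :=
  ∃ (b : Fin d → ℝ) (E : Matrix (Fin d) (Fin d) ℝ) (γ : Matrix (Fin d) (Fin d) ℤ),
    (∀ i, 1 / K ≤ b i ∧ b i ≤ K) ∧ (∀ i j, |E i j| ≤ ε) ∧ |γ.det| = 1 ∧
    x = Matrix.diagonal b * (1 + E) * y * γ.map (Int.cast : ℤ → ℝ)

/-- The orbit of `g` under the positive diagonal matrices of determinant one can be divided into
`k` classes such that any two elements of a class are close. -/
def Pieces (K ε : ℝ) (g : Matrix (Fin d) (Fin d) ℝ) (k : ℕ) : Prop :=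
  ∃ col : (Fin d → ℝ) → Fin k, ∀ a a' : Fin d → ℝ,
    (∀ i, 0 < a i) → ∏ i, a i = 1 → (∀ i, 0 < a' i) → ∏ i, a' i = 1 → col a = col a' →
    Close K ε (Matrix.diagonal a * g) (Matrix.diagonal a' * g)

lemma close_iff (K ε : ℝ) (x y : Matrix (Fin d) (Fin d) ℝ) :
    Close K ε x y ↔ T6.H49.CSD.Cl K ε x y := by
  constructor
  · rintro ⟨b, E, γ, hb, hE, hγ, h⟩
    exact ⟨b, E, γ, hb, hE, Int.isUnit_iff_abs_eq.2 hγ, h⟩
  · rintro ⟨b, E, γ, hb, hE, hγ, h⟩
    exact ⟨b, E, γ, hb, hE, Int.isUnit_iff_abs_eq.1 hγ, h⟩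

lemma close_mono {K K' ε ε' : ℝ} (hK : 0 < K) (hKK : K ≤ K') (hε : ε ≤ ε')
    {x y : Matrix (Fin d) (Fin d) ℝ} (h : Close K ε x y) : Close K' ε' x y := by
  obtain ⟨b, E, γ, hb, hE, hγ, heq⟩ := h
  exact ⟨b, E, γ, fun i => ⟨(one_div_le_one_div_of_le hK hKK).trans (hb i).1,
    (hb i).2.trans hKK⟩, fun i j => (hE i j).trans hε, hγ, heq⟩

theorem result (d : ℕ) (hd : 3 ≤ d) (V ν K : ℝ) (hV : 0 < V) (hν : 0 < ν) (hK : 2 ≤ K) :
    ∃ c ε₀ : ℝ, 0 < c ∧ 0 < ε₀ ∧ ∀ g : Matrix (Fin d) (Fin d) ℝ, |g.det| = V →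
      (∀ x : Fin d → ℤ, x ≠ 0 → ν ≤ |F g x|) →
      (PropInt g ↔ ∃ k : ℕ, Pieces K 0 g k) ∧
      (PropInt g ↔ ∃ (ε : ℝ) (k : ℕ), 0 < ε ∧ ε < ε₀ ∧ Pieces K ε g k ∧
        (k : ℝ) < c * Real.log (1 / ε) ^ (d - d / d.minFac)) := by
  classical
  obtain ⟨e, rfl⟩ : ∃ e, d = e + 1 := ⟨d - 1, by omega⟩
  obtain ⟨c, ε₀, hc, hε₀, hmain⟩ := T6.H49.CSD.complexity (e := e) (by omega) hV hν
    (by linarith : (1 : ℝ) ≤ K)
  refine ⟨c, ε₀, hc, hε₀, fun g hdet hF => ?_⟩
  have hg : g.det ≠ 0 := by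
    intro h0
    rw [h0, abs_zero] at hdet
    exact hV.ne hdet
  have h12 : PropInt g → ∃ k : ℕ, Pieces K 0 g k := by
    intro hint
    obtain ⟨k, col, hcol⟩ := T6.H49.CSD.propInt_pieces (Nat.succ_pos e) hg hν hF hint
    refine ⟨k, col, fun a a' ha0 ha1 ha0' ha1' h => ?_⟩
    exact close_mono (by norm_num) hK le_rfl ((close_iff 2 0 _ _).2 (hcol a a' ha0 ha1 ha0' ha1' h))
  have h23 : (∃ k : ℕ, Pieces K 0 g k) → ∃ (ε : ℝ) (k : ℕ), 0 < ε ∧ ε < ε₀ ∧ Pieces K ε g k ∧
      (k : ℝ) < c * Real.log (1 / ε) ^ ((e + 1) - (e + 1) / (e + 1).minFac) := by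
    rintro ⟨k, col, hcol⟩
    set κ : ℕ := (e + 1) - (e + 1) / (e + 1).minFac with hκ
    have hκ0 : κ ≠ 0 := by
      have h1 : (e + 1) / (e + 1).minFac < e + 1 :=
        Nat.div_lt_self (Nat.succ_pos e) (Nat.minFac_prime (by omega)).one_lt
      omega
    -- a small scale
    have hlim : Tendsto (fun ε : ℝ => c * Real.log (1 / ε) ^ κ) (𝓝[>] 0) atTop := by
      have h1 : Tendsto (fun ε : ℝ => 1 / ε) (𝓝[>] 0) atTop := by
        simpa using tendsto_inv_nhdsGT_zero (𝕜 := ℝ)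
      exact ((tendsto_pow_atTop hκ0).comp (Real.tendsto_log_atTop.comp h1)).const_mul_atTop hc
    have hev : ∀ᶠ ε in 𝓝[>] (0 : ℝ), (k : ℝ) < c * Real.log (1 / ε) ^ κ :=
      hlim.eventually_gt_atTop _
    have hev2 : ∀ᶠ ε in 𝓝[>] (0 : ℝ), ε ∈ Set.Ioo 0 ε₀ := Ioo_mem_nhdsGT hε₀
    obtain ⟨ε, h1, h2⟩ := (hev.and hev2).exists
    refine ⟨ε, k, h2.1, h2.2, ⟨col, fun a a' ha0 ha1 ha0' ha1' h => ?_⟩, h1⟩
    exact close_mono (by linarith) le_rfl h2.1.le (hcol a a' ha0 ha1 ha0' ha1' h)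
  have h31 : (∃ (ε : ℝ) (k : ℕ), 0 < ε ∧ ε < ε₀ ∧ Pieces K ε g k ∧
      (k : ℝ) < c * Real.log (1 / ε) ^ ((e + 1) - (e + 1) / (e + 1).minFac)) → PropInt g := by
    rintro ⟨ε, k, hε0, hε, ⟨col, hcol⟩, hk⟩
    by_contra hint
    exact absurd (hmain g hdet hF hint ε hε0 hε k col fun a a' ha0 ha1 ha0' ha1' h =>
      (close_iff K ε _ _).1 (hcol a a' ha0 ha1 ha0' ha1' h)) (not_le.2 hk)
  exact ⟨⟨h12, fun h => h31 (h23 h)⟩, ⟨fun h => h23 (h12 h), h31⟩⟩

end Pool.Agent.Results.MP_edeaa2_an.OrbitComplexity
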