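import Mathlib
import Pool.Agent.T6.H49.CSD.Mult

/-! # MP_edeaa2_an: the multiplicities of the values of products of linear forms

Let `d ≥ 2`, let `g` be a real invertible `d × d` matrix and let `F` be the product of the linear
forms given by its rows. Suppose `|F| ≥ ν > 0` at all nonzero integer points.

1. Let `W` be a subspace of `ℝ` over `ℚ` which does not contain all coefficients of `F`. The number
   of the integer points `x` with coordinates of absolute value at most `X`, `|F(x)| < T` and `F(x)`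
   in `W` is at most `C (1 + log (1 + ‖g‖ X)) ^ (d - 2)`, where `‖g‖` is the sum of the absolute
   values of the entries of `g`, and `C` depends only on `d`, `ν` and `T`, and neither on `g` nor on
   `W`.
2. `F` is proportional to an integral form if and only if for some real `v` the number of integer
   points with coordinates of absolute value at most `X` and `F(x) = v` is not
   `O((log X) ^ (d - 2))`.

The conjecture of Cassels and Swinnerton-Dyer says that for `d ≥ 3` all forms which are bounded away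
from zero at nonzero integer points are proportional to integral forms. (Remark, not proved here:
these take some value about `(log X) ^ (d - 1)` times.) -/

set_option autoImplicit false

namespace Pool.Agent.Results.MP_edeaa2_an.ValueMultiplicities

variable {d : ℕ}

/-- the product of the linear forms given by the rows of `g`, at an integer point -/
noncomputable def F (g : Matrix (Fin d) (Fin d) ℝ) (x : Fin d → ℤ) : ℝ :=
  ∏ i : Fin d, ∑ j : Fin d, g i j * (x j : ℝ)

/-- the product of the linear forms given by the rows of `g`, as a polynomial -/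
noncomputable def P (g : Matrix (Fin d) (Fin d) ℝ) : MvPolynomial (Fin d) ℝ :=
  ∏ i : Fin d, ∑ j : Fin d, MvPolynomial.C (g i j) * MvPolynomial.X j

/-- the product of the linear forms is proportional to a form with integer coefficients -/
def PropInt (g : Matrix (Fin d) (Fin d) ℝ) : Prop :=
  ∃ c : ℝ, c ≠ 0 ∧ ∀ m : Fin d →₀ ℕ, ∃ z : ℤ, MvPolynomial.coeff m (c • P g) = (z : ℝ)

theorem result :
    -- 1. few small values lie in a rational subspace
    (∀ d : ℕ, 2 ≤ d → ∀ ν T : ℝ, 0 < ν → 0 < T → ∃ C : ℝ,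
      ∀ g : Matrix (Fin d) (Fin d) ℝ, g.det ≠ 0 → (∀ x : Fin d → ℤ, x ≠ 0 → ν ≤ |F g x|) →
      ∀ W : Submodule ℚ ℝ, (∃ m : Fin d →₀ ℕ, MvPolynomial.coeff m (P g) ∉ W) →
      ∀ X : ℝ, 0 ≤ X →
        ({x : Fin d → ℤ | (∀ i, |(x i : ℝ)| ≤ X) ∧ |F g x| < T ∧ F g x ∈ W}.ncard : ℝ) ≤
          C * (1 + Real.log (1 + (∑ i, ∑ j, |g i j|) * X)) ^ (d - 2)) ∧
    -- 2. the multiplicities decide
    (∀ d : ℕ, 2 ≤ d → ∀ g : Matrix (Fin d) (Fin d) ℝ, g.det ≠ 0 →
      ∀ ν : ℝ, 0 < ν → (∀ x : Fin d → ℤ, x ≠ 0 → ν ≤ |F g x|) →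
      (PropInt g ↔ ∃ v : ℝ, ¬ ∃ C : ℝ, ∀ X : ℝ, 2 ≤ X →
        ({x : Fin d → ℤ | (∀ i, |(x i : ℝ)| ≤ X) ∧ F g x = v}.ncard : ℝ) ≤
          C * Real.log X ^ (d - 2))) := by
  classical
  refine ⟨?_, ?_⟩
  · intro d hd ν T hν hT
    obtain ⟨e, rfl⟩ : ∃ e, d = e + 1 := ⟨d - 1, by omega⟩
    obtain ⟨C, hC0, hC⟩ := T6.H49.CSD.count_subspace e hν hT
    refine ⟨C + 1, fun g hg hnu W hW X hX => ?_⟩
    set s : Set (Fin (e + 1) → ℤ) :=
      {x | (∀ i, |(x i : ℝ)| ≤ X) ∧ |F g x| < T ∧ F g x ∈ W} with hs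
    have hfin : s.Finite := (T6.H49.CSD.finite_box X).subset fun x hx => hx.1
    have hcard : s.ncard = hfin.toFinset.card := Set.ncard_eq_toFinset_card _ _
    have hsplit : hfin.toFinset.card ≤ (hfin.toFinset.erase 0).card + 1 := by
      have := Finset.pred_card_le_card_erase (s := hfin.toFinset) (a := (0 : Fin (e + 1) → ℤ))
      omega
    have h1 := hC g hg hnu W hW X hX (hfin.toFinset.erase 0) (fun x hx => by
      obtain ⟨hx0, hxS⟩ := Finset.mem_erase.1 hx
      obtain ⟨hxX, hxT, hxW⟩ := (Set.Finite.mem_toFinset _).1 hxS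
      exact ⟨hx0, hxX, hxT, hxW⟩)
    have h2 : (1 : ℝ) ≤ 1 + Real.log (1 + (∑ i, ∑ j, |g i j|) * X) := by
      have h3 : 0 ≤ (∑ i, ∑ j, |g i j|) * X := mul_nonneg
        (Finset.sum_nonneg fun _ _ => Finset.sum_nonneg fun _ _ => abs_nonneg _) hX
      have : 0 ≤ Real.log (1 + (∑ i, ∑ j, |g i j|) * X) := Real.log_nonneg (by linarith)
      linarith
    have h3 : (1 : ℝ) ≤ (1 + Real.log (1 + (∑ i, ∑ j, |g i j|) * X)) ^ (e - 1) :=
      one_le_pow₀ h2
    have h4 : (s.ncard : ℝ) ≤ ((hfin.toFinset.erase 0).card : ℝ) + 1 := by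
      rw [hcard]
      exact_mod_cast hsplit
    show (s.ncard : ℝ) ≤ (C + 1) * (1 + Real.log (1 + (∑ i, ∑ j, |g i j|) * X)) ^ (e - 1)
    linarith
  · intro d hd g hg ν hν hnu
    obtain ⟨e, rfl⟩ : ∃ e, d = e + 1 := ⟨d - 1, by omega⟩
    exact T6.H49.CSD.propInt_iff_often (by omega) hg hν hnu

end Pool.Agent.Results.MP_edeaa2_an.ValueMultiplicities
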